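import Pool.Agent.MP_826def_gt.MU.Spec

/-! Tools for the applications of the descent theorem. -/

namespace Pool.Agent.MP_826def_gt.BQ

open MU Set Topology

noncomputable section

variable {X X' K T : Type} [TopologicalSpace X] [TopologicalSpace X'] [TopologicalSpace K]
  [TopologicalSpace T]

/-- The sphere bundle. -/
def Sph (ξ : Bun X) : Type := {z : X × ξ.W // ξ.p z.1 z.2 = z.2 ∧ ‖z.2‖ = 1}

instance (ξ : Bun X) : TopologicalSpace (Sph ξ) := instTopologicalSpaceSubtype

instance [T2Space X] (ξ : Bun X) : T2Space (Sph ξ) := inferInstanceAs (T2Space (Subtype _))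

instance [CompactSpace X] (ξ : Bun X) : CompactSpace (Sph ξ) := by
  have h1 : IsClosed {z : X × ξ.W | ξ.p z.1 z.2 = z.2} :=
    isClosed_eq ((ξ.p.continuous.comp continuous_fst).clm_apply continuous_snd) continuous_snd
  have h2 := ((isCompact_univ (X := X)).prod (isCompact_sphere (0 : ξ.W) 1)).inter_left h1
  refine isCompact_iff_compactSpace.1 (?_ : IsCompact {z : X × ξ.W | _})
  refine (congrArg IsCompact (Set.ext fun z => ?_)).mp h2
  simp

/-- The projection of the sphere bundle. -/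
def sp (ξ : Bun X) : C(Sph ξ, X) := ⟨fun z => z.1.1, continuous_subtype_val.fst⟩

/-- The tautological section over the sphere bundle. -/
def st (ξ : Bun X) : C(Sph ξ, ξ.W) := ⟨fun z => z.1.2, continuous_subtype_val.snd⟩

theorem isSph (ξ : Bun X) : IsSph ξ (sp ξ) (st ξ) :=
  ⟨IsEmbedding.subtypeVal, Subtype.range_coe_subtype⟩

/-- The map of sphere bundles over a map of the bases. -/
def sm (ξ : Bun X) (f : C(X', X)) : C(Sph (ξ.pull f), Sph ξ) :=
  ⟨fun z => ⟨(f z.1.1, z.1.2), z.2⟩, ((f.continuous.comp continuous_subtype_val.fst).prodMk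
    continuous_subtype_val.snd).subtype_mk _⟩

/-- Multiplication by a unit complex number. -/
def rot {ξ : Bun X} (c : ℂ) (hc : ‖c‖ = 1) (z : Sph ξ) : Sph ξ :=
  ⟨(z.1.1, c • z.1.2), by rw [map_smul, z.2.1], by rw [norm_smul, hc, z.2.2, one_mul]⟩

variable [C : Fact Core]

theorem deg_zero (d : ℤ) : IsDeg d (0 : h X) := map_zero _

theorem deg_part (A : Api) (d : ℤ) (x : h X) : IsDeg d (part d x) := by
  rw [IsDeg, A.deg.proj, if_pos rfl]

theorem part_ne (A : Api) {d e : ℤ} {x : h X} (hx : IsDeg e x) (hd : d ≠ e) : part d x = 0 := by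
  rw [← hx, A.deg.proj, if_neg hd]

theorem part_map (A : Api) (f : h X →+ h X') (k : ℤ)
    (hf : ∀ d x, IsDeg d x → IsDeg (d + k) (f x)) (d : ℤ) (x : h X) :
    part (d + k) (f x) = f (part d x) := by
  obtain ⟨S, h1, h2⟩ := A.deg.fin x
  conv_lhs => rw [← h1, map_sum, map_sum]
  rw [Finset.sum_eq_single d]
  · exact hf _ _ (deg_part A d x)
  · exact fun e _ he => part_ne A (hf _ _ (deg_part A e x)) (by omega)
  · intro hd
    rw [h2 d hd, map_zero, map_zero]

theorem all_of (A : Api) {R : AddSubgroup (h X)} (H : ∀ d x, IsDeg d x → x ∈ R) (x : h X) :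
    x ∈ R := by
  obtain ⟨S, h1, -⟩ := A.deg.fin x
  exact h1 ▸ R.sum_mem fun d _ => H d _ (deg_part A d x)

theorem descent (A : Api) (q : S_Q) {a : ℕ → ℕ → UU} (ha : IsFGL a) [T2Space X]
    [LocallyCompactSpace X] (R : AddSubgroup (h X))
    (h1 : ∀ i j, ∀ x ∈ R, act (toPt X) (a i j) x ∈ R) (h2 : ∀ d, ∀ x ∈ R, part d x ∈ R)
    (h3 : ∀ x : h X, x + x ∈ R) (h4 : ∀ e > 0, ∀ x, IsDeg e x → x ∈ R)
    (h5 : (∀ x, IsDeg 0 x → prod (ContinuousMap.id X) (ContinuousMap.id X) x x - x ∈ R) →
      ∀ x, IsDeg 0 x → x ∈ R) (x : h X) : x ∈ R := by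
  have k : ∀ n : ℕ, ∀ e > -(n : ℤ), ∀ x, IsDeg e x → x ∈ R := by
    intro n
    induction n with
    | zero => simpa using h4
    | succ n ih =>
      intro e he x hx
      by_cases h0 : e > -(n : ℤ)
      · exact ih e h0 x hx
      obtain rfl : e = -(n : ℤ) := by push_cast at he; omega
      by_cases hn : -(n : ℤ) = 0
      · rw [hn] at hx
        refine h5 (fun y hy => ?_) x hx
        simpa using q a ha X R h1 h2 h3 0 le_rfl h4 y hy
      · have := q a ha X R h1 h2 h3 _ (by omega) ih x hx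
        rwa [if_neg hn] at this
  exact all_of A (fun d x hx => k (d.natAbs + 1) d (by omega) x hx) x

/-- Products vanish on the product with a line. -/
theorem prod_line (A : Api) [T2Space T] (x y : h (T × ℝ)) :
    prod (ContinuousMap.id _) (ContinuousMap.id _) x y = 0 := by
  induction x using h_ind with | _ a ha => ?_
  induction y using h_ind with | _ c hc => ?_
  obtain ⟨M, hM⟩ := (ha.cpt.image (f := fun z => z.1.2) (by fun_prop)).bddBelow
  obtain ⟨N, hN⟩ := (hc.cpt.image (f := fun z => z.1.2) (by fun_prop)).bddAbove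
  let τ : C(T × ℝ, T × ℝ) := ⟨fun z => (z.1, z.2 + (N - M + 1)), by fun_prop⟩
  let F : C((T × ℝ) × unitInterval, T × ℝ) :=
    ⟨fun z => (z.1.1, z.1.2 + z.2 * (N - M + 1)), by fun_prop⟩
  let e : (T × ℝ) × unitInterval ≃ₜ (T × ℝ) × unitInterval :=
    { toFun := fun z => (F z, z.2)
      invFun := fun z => ((z.1.1, z.1.2 - z.2 * (N - M + 1)), z.2)
      left_inv := fun z => by simp [F]
      right_inv := fun z => by simp [F]
      continuous_toFun := by fun_prop
      continuous_invFun := by fun_prop }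
  have hF : IsProperMap F := isProperMap_fst_of_compactSpace.comp e.isProperMap
  have hτ : IsProperMap τ :=
    ((Homeomorph.refl T).prodCongr (Homeomorph.addRight (N - M + 1))).isProperMap
  have h1 := A.fn.htpy F (ContinuousMap.id _) τ hF (fun z => by simp [F]) (fun z => by simp [F, τ])
    (cls c)
  have h2 : Pr (ContinuousMap.id (T × ℝ)) τ := (isProperMap_id.prodMap hτ).comp (pr_id (.id _))
  rw [pull_id] at h1
  rw [h1, ← pull_id (cls a), prod_pull (pr_id _) isProperMap_id hτ]
  refine (prod_cls h2 ha hc).trans (cls_empty (C.out.good2.prod ha hc h2) ?_)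
  refine eq_empty_of_forall_notMem fun z hz => ?_
  have a1 := hM ⟨(z.1, z.2.1), ⟨hz.1.1, congrArg Prod.fst hz.2⟩, rfl⟩
  have a2 := hN ⟨(τ z.1, z.2.2), ⟨hz.1.2, congrArg Prod.snd hz.2⟩, rfl⟩
  simp only [τ, ContinuousMap.coe_mk] at a1 a2
  linarith

/-- The inclusion of a subset. -/
abbrev inc (P : Set X) : C(P, X) := ⟨Subtype.val, continuous_subtype_val⟩

theorem exists_push (l : S_LES) [T2Space X] [LocallyCompactSpace X] {P : Set X} (hP : IsClosed P)
    {x : h X} (hx : pull (inc P) x = 0) : ∃ y, push (inc Pᶜ) y = x := by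
  obtain ⟨δ, hδ⟩ := l
  obtain ⟨y, hy⟩ := ((hδ.exact (inc P) (inc Pᶜ) ⟨hP.isClosedEmbedding_subtypeVal,
    hP.isOpen_compl.isOpenEmbedding_subtypeVal, Subtype.range_coe.trans
      (congrArg compl Subtype.range_coe.symm)⟩).1 (x, 0)).1
    (Prod.ext hx (map_zero (pull (xR (inc P)))))
  exact ⟨y.1, congrArg Prod.fst hy⟩

/-- The product of two classes that vanish on the members of a closed cover is zero. -/
theorem mul_cover (A : Api) (l : S_LES) [CompactSpace K] [T2Space K] {P Q : Set K} (hP : IsClosed P)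
    (hQ : IsClosed Q) (hc : ∀ z, z ∈ P ∨ z ∈ Q) {x y : h K} (hx : pull (inc P) x = 0)
    (hy : pull (inc Q) y = 0) : x * y = 0 := by
  obtain ⟨x, rfl⟩ := exists_push l hP hx
  obtain ⟨y, rfl⟩ := exists_push l hQ hy
  have := (A.fn.bcP (.id K) (.id K) (⟨Empty.elim, by fun_prop⟩ : C(Empty, K)) (inc Pᶜ) (inc Qᶜ)
    ⟨Empty.elim, by fun_prop⟩ ⟨Empty.elim, by fun_prop⟩ (pr_id _) (IsOpenEmbedding.of_isEmpty _)
    hP.isOpen_compl.isOpenEmbedding_subtypeVal hQ.isOpen_compl.isOpenEmbedding_subtypeVal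
    (fun u => u.elim) (fun u => u.elim) (by
      rintro z ⟨u, hu⟩ ⟨v, hv⟩
      exact ((hc z).elim (fun e => u.2 ((show u.1 = z from hu) ▸ e))
        fun e => v.2 ((show v.1 = z from hv) ▸ e)).elim)).2 x y
  rw [mul_def, this, A.fn.empty (prod _ _ x y), map_zero]

/-- A map to a sphere that misses the antipode of a point is homotopic to a constant map. -/
theorem pull_sph (A : Api) [CompactSpace K] {ξ : Bun Unit} (g : C(K, Sph ξ)) (w : Sph ξ)
    (hg : ∀ k, (g k).1.2 ≠ -w.1.2) (y : h (Sph ξ)) : pull g y = pull (.const K w) y := by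
  let v : K × unitInterval → ξ.W := fun z =>
    ((1 - z.2 : ℝ) : ℂ) • (g z.1).1.2 + ((z.2 : ℝ) : ℂ) • w.1.2
  have hv : Continuous v := by
    have := (st ξ).continuous.comp (g.continuous.comp (continuous_fst (Y := unitInterval)))
    exact (Continuous.smul (by fun_prop) this).add (Continuous.smul (by fun_prop) continuous_const)
  have h0 : ∀ z, v z ≠ 0 := fun z e => by
    have e1 := eq_neg_of_add_eq_zero_left e
    have e2 := congrArg norm e1
    rw [norm_neg, norm_smul, norm_smul, (g z.1).2.2, w.2.2, Complex.norm_real, Complex.norm_real,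
      Real.norm_of_nonneg (sub_nonneg.2 z.2.2.2), Real.norm_of_nonneg z.2.2.1] at e2
    have e3 : (z.2 : ℝ) = 1 / 2 := by linarith
    rw [e3, ← smul_neg, show (1 - 1 / 2 : ℝ) = 1 / 2 by norm_num] at e1
    exact hg _ (smul_right_injective _ (by norm_num) e1)
  let F : C(K × unitInterval, Sph ξ) := ⟨fun z => ⟨((), ((‖v z‖⁻¹ : ℝ) : ℂ) • v z), by
      simp only [v, map_smul, map_add]
      rw [(g z.1).2.1, w.2.1], by
      rw [norm_smul, Complex.norm_real, norm_inv, norm_norm,
        inv_mul_cancel₀ (norm_ne_zero_iff.2 (h0 z))]⟩,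
    (continuous_const.prodMk ((Complex.continuous_ofReal.comp (hv.norm.inv₀ fun z =>
      norm_ne_zero_iff.2 (h0 z))).smul hv)).subtype_mk _⟩
  refine A.fn.htpy F _ _ F.continuous.isProperMap (fun k => ?_) (fun k => ?_) y
  · exact Subtype.ext (Prod.ext rfl (by simp [F, v, (g k).2.2]))
  · exact Subtype.ext (Prod.ext rfl (by simp [F, v, w.2.2]))

/-- On a sphere the square of a class that vanishes at a point is zero. -/
theorem sq_sph (A : Api) (l : S_LES) {ξ : Bun Unit} (w : Sph ξ) {y : h (Sph ξ)}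
    (hy : pull (.const Unit w) y = 0) : y * y = 0 := by
  have hw : w.1.2 ≠ 0 := fun e => by simpa [e] using w.2.2
  have k : ∀ w : Sph ξ, pull (.const Unit w) y = 0 →
      IsClosed {z : Sph ξ | ‖z.1.2 - w.1.2‖ ≤ ‖z.1.2 + w.1.2‖} ∧
      pull (inc {z : Sph ξ | ‖z.1.2 - w.1.2‖ ≤ ‖z.1.2 + w.1.2‖}) y = 0 := fun w hy => by
    have h1 : IsClosed {z : Sph ξ | ‖z.1.2 - w.1.2‖ ≤ ‖z.1.2 + w.1.2‖} := isClosed_le
      ((st ξ).continuous.sub continuous_const).norm ((st ξ).continuous.add continuous_const).norm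
    have := isCompact_iff_compactSpace.1 h1.isCompact
    refine ⟨h1, (pull_sph A _ w (fun z e => ?_) y).trans ?_⟩
    · have a : ‖z.1.1.2 - w.1.2‖ ≤ ‖z.1.1.2 + w.1.2‖ := z.2
      have e : z.1.1.2 = -w.1.2 := e
      rw [e, neg_add_cancel, norm_zero, norm_le_zero_iff, ← neg_add', neg_eq_zero, ← two_smul ℂ,
        smul_eq_zero] at a
      have b := w.2.2
      rw [a.resolve_left two_ne_zero, norm_zero] at b
      exact zero_ne_one b
    · have := pull_comp (f := .const Unit w) (g := toPt {z : Sph ξ | ‖z.1.2 - w.1.2‖ ≤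
        ‖z.1.2 + w.1.2‖}) (ContinuousMap.continuous _).isProperMap
        (ContinuousMap.continuous _).isProperMap y
      rw [hy, map_zero] at this
      exact this.symm
  have n1 : ∀ c : ℂ, c • w.1.2 = 0 → c = 0 := fun c e => (smul_eq_zero.1 e).resolve_right hw
  have h1 : pull (.const Unit (rot Complex.I Complex.norm_I w)) y = 0 :=
    (pull_sph A _ w (fun _ e => by
      have := n1 (Complex.I + 1) (by rw [add_smul, one_smul]; exact add_eq_zero_iff_eq_neg.2 e)
      simpa using congrArg Complex.re this) y).trans hy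
  have h2 : pull (.const Unit (rot (-1) (by simp) w)) y = 0 :=
    (pull_sph A _ (rot Complex.I Complex.norm_I w) (fun _ e => by
      have := n1 (-1 + Complex.I) (by rw [add_smul]; exact add_eq_zero_iff_eq_neg.2 e)
      simpa using congrArg Complex.re this) y).trans h1
  refine mul_cover A l (k _ hy).1 (k _ h2).1 (fun z => ?_) (k _ hy).2 (k _ h2).2
  simpa [rot, sub_eq_add_neg] using le_total _ _

end

end Pool.Agent.MP_826def_gt.BQ
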