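import Pool.Agent.MP_826def_gt.BQ.Kit
import Pool.Agent.MP_826def_gt.BG.Fm

/-! The applications of the descent theorem to the coefficient groups. -/

namespace Pool.Agent.MP_826def_gt.BQ

open MU Set Topology

noncomputable section

variable [C : Fact Core]

theorem part_closure (A : Api) {a : ℕ → ℕ → UU} (ha : IsFGL a) {c : UU}
    (hc : c ∈ Subring.closure (range fun q : ℕ × ℕ => a q.1 q.2)) :
    ∀ d, part d c ∈ Subring.closure (range fun q : ℕ × ℕ => a q.1 q.2) := by
  have k : ∀ (e : ℤ) (x : UU), IsDeg e x →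
      x ∈ Subring.closure (range fun q : ℕ × ℕ => a q.1 q.2) →
      ∀ d, part d x ∈ Subring.closure (range fun q : ℕ × ℕ => a q.1 q.2) := fun e x h1 h2 d => by
    by_cases hd : d = e
    · rwa [hd, h1]
    · rw [part_ne A h1 hd]
      exact zero_mem _
  induction hc using Subring.closure_induction with
  | mem x hx =>
    obtain ⟨q, rfl⟩ := hx
    exact k _ _ (ha.deg _ _) (Subring.subset_closure ⟨q, rfl⟩)
  | zero => exact k 0 _ (deg_zero 0) (zero_mem _)
  | one => exact k 0 _ (A.deg.one Unit) (one_mem _)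
  | add x y _ _ hx hy => exact fun d => map_add (part d) x y ▸ add_mem (hx d) (hy d)
  | neg x _ hx => exact fun d => map_neg (part d) x ▸ neg_mem (hx d)
  | mul x y _ _ hx hy =>
    intro d
    obtain ⟨S, h1, -⟩ := A.deg.fin x
    rw [← h1, Finset.sum_mul, map_sum]
    refine sum_mem fun e _ => ?_
    have := A.deg.prod (.id Unit) (.id Unit) e (d - e) _ (deg_part A e x) y
    rw [add_sub_cancel] at this
    rw [mul_def, this]
    exact mul_mem (hx e) (hy _)

theorem gen (A : Api) (q : S_Q) (gp : S_GP) {a : ℕ → ℕ → UU} (ha : IsFGL a) (u : UU) :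
    ∃ c ∈ Subring.closure (range fun q : ℕ × ℕ => a q.1 q.2), ∃ y, u = c + 2 * y := by
  let R : AddSubgroup UU :=
    { carrier := {u | ∃ c ∈ Subring.closure (range fun q : ℕ × ℕ => a q.1 q.2), ∃ y, u = c + 2 * y}
      add_mem' := by
        rintro _ _ ⟨c, hc, y, rfl⟩ ⟨c', hc', y', rfl⟩
        exact ⟨c + c', add_mem hc hc', y + y', by ring⟩
      zero_mem' := ⟨0, zero_mem _, 0, by ring⟩
      neg_mem' := by
        rintro _ ⟨c, hc, y, rfl⟩
        exact ⟨-c, neg_mem hc, -y, by ring⟩ }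
  refine descent A q ha R ?_ ?_ (fun x => ⟨0, zero_mem _, x, by ring⟩) (fun e he x hx => ?_)
    (fun _ x hx => ?_) u
  · rintro i j _ ⟨c, hc, y, rfl⟩
    have e : pullR (toPt Unit) (a i j) = a i j := pull_id _
    rw [A.act.self, e]
    exact ⟨a i j * c, mul_mem (Subring.subset_closure ⟨(i, j), rfl⟩) hc, a i j * y, by ring⟩
  · rintro d _ ⟨c, hc, y, rfl⟩
    exact ⟨_, part_closure A ha hc d, part d y, by rw [two_mul, two_mul, map_add, map_add]⟩
  · rw [← hx, gp.1 e he]
    exact R.zero_mem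
  · obtain ⟨n, hn⟩ := gp.2.2 x
    exact ⟨n, intCast_mem _ n, 0, by rw [← hn, hx, mul_zero, add_zero]⟩

theorem surj (A : Api) (q : S_Q) (gp : S_GP) {a : ℕ → ℕ → UU} (ha : IsFGL a) (x : h (Unit × ℝ)) :
    ∃ y, y + y = x := by
  refine descent A q ha (AddMonoidHom.id _ + AddMonoidHom.id _ : h (Unit × ℝ) →+ _).range ?_ ?_
    (fun x => ⟨x, rfl⟩) (fun e he x hx => ?_) (fun H x hx => ?_) x
  · rintro i j _ ⟨y, rfl⟩
    exact ⟨_, (map_add (act (toPt _) (a i j)) y y).symm⟩
  · rintro d _ ⟨y, rfl⟩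
    exact ⟨_, (map_add (part d) y y).symm⟩
  · rw [← hx, gp.2.1 e he]
    exact zero_mem _
  · have := H x hx
    rwa [prod_line A, zero_sub, neg_mem_iff] at this

/-- The base point of the projective line. -/
def b0 : CP 2 2 := ⟨pj fun _ => 1, fun _ => 1, by simp, fun i hi => absurd i.2 (by omega), rfl⟩

/-- The inclusion of the base point. -/
abbrev pt : C(Unit, CP 2 2) := .const Unit b0

/-- The square of the tautological bundle. -/
abbrev xi : Bun (CP 2 2) := tm (.id _) (.id _)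

theorem pt_eu (A : Api) : pullR pt (eu (taut 2 2)) = 0 := by
  have := A.eul.nz (K := Unit) (ι := Unit) (fun _ => (taut 2 2).pull pt)
    (fun _ => .const _ fun _ => 1) (fun _ _ => mv_pj_self (u := fun _ => 1) one_ne_zero)
    fun _ => ⟨(), (one_ne_zero : (1 : Fin 2 → ℂ) ≠ 0)⟩
  rw [A.eul.pull]
  simpa using this

theorem eu_xi (A : Api) (c : S_CPX) {a : ℕ → ℕ → UU} (ha : IsFGL a) :
    eu xi = eu (taut 2 2) + eu (taut 2 2) := by
  have h1 : eu xi = Fm (cf (toU _) a) (eu (taut 2 2)) (eu (taut 2 2)) :=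
    ha.tens _ _ _ (A.bun.rk_taut 2 2) (A.bun.rk_taut 2 2) (A.bun.rk_tm _ _)
      (A.bun.tens_tm (.id _) (.id _))
  have h2 := (c 2 2).1
  obtain ⟨-, -, -, -, ⟨s, hs⟩, -⟩ := (BG.sFm _ (cf (toU _) a) (eu (taut 2 2))
    (eu (taut 2 2))).2.2.2 (fun i => by simp [cf, ha.fg.unit])
      (fun i j => by rw [cf, cf, ha.fg.symm]) ⟨2, h2⟩ ⟨2, h2⟩
  rw [← sq, h2, zero_mul, sub_sub, sub_eq_zero] at hs
  exact h1.trans hs

theorem heul_xi (A : Api) (c : S_CPX) {a : ℕ → ℕ → UU} (ha : IsFGL a) (y : H (CP 2 2)) :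
    Heul xi y = Hact (.id _) (eu (taut 2 2)) (y + y) := by
  have := (A.eul.act (.id _) xi).2 y
  rw [eu_xi A c ha, map_add] at this
  exact this.trans (map_add (Hact (.id _) (eu (taut 2 2))) y y).symm

theorem pt_to (A : Api) (w : H Unit) : Hpull pt (Hpull (toPt _) w) = w :=
  (A.act.Hcomp _ _ (ContinuousMap.continuous _).isProperMap
    (ContinuousMap.continuous _).isProperMap w).trans (A.act.Hid w)

theorem tors_of (A : Api) (c : S_CPX) {a : ℕ → ℕ → UU} (ha : IsFGL a) {z : H (CP 2 2)}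
    (hz : Heul xi z = 0) : Hpull pt z + Hpull pt z = 0 := by
  have hb := (c 2 2).2 le_rfl (toPt (CP 2 2)) (.id _)
    (Homeomorph.punitProd.{0, 0} (CP 2 2)).symm.isHomeomorph
  obtain ⟨w, rfl⟩ := hb.2 z
  simp only [Fin.sum_univ_two, Fin.val_zero, Fin.val_one, pow_zero, pow_one, map_one] at hz ⊢
  have e1 : ∀ y, Hpull pt (Hact (.id _) (eu (taut 2 2)) y) = 0 := fun y => by
    have := (A.act.base (.id Unit) pt (eu (taut 2 2))).2
    rw [pt_eu A, map_zero] at this
    rw [(A.act.pull _ _ _).2]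
    exact (congrArg (fun φ : AddMonoid.End (H Unit) => φ (Hpull pt y)) this).symm
  have e2 : ∀ y, Hact (.id _) (eu (taut 2 2)) (Hact (.id (CP 2 2)) (eu (taut 2 2)) y) = 0 :=
    fun y => by
      have := map_mul (Hact (.id (CP 2 2))) (eu (taut 2 2)) (eu (taut 2 2))
      rw [← sq, (c 2 2).1, map_zero] at this
      exact (congrArg (fun φ : AddMonoid.End (H (CP 2 2)) => φ y) this).symm
  rw [heul_xi A c ha, map_add, map_add, e2, add_zero, AddMonoid.End.one_apply, ← map_add,
    ← map_add] at hz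
  rw [map_add, e1, add_zero, AddMonoid.End.one_apply, pt_to A]
  have := @hb.1 ![0, w 0 + w 0] 0 (by
    simp only [Fin.sum_univ_two, Fin.val_zero, Fin.val_one, pow_zero, pow_one, map_one,
      Matrix.cons_val_zero, Matrix.cons_val_one, Pi.zero_apply, map_zero, zero_add]
    exact hz)
  exact congrFun this 1

theorem tors (A : Api) (q : S_Q) (g : S_Gys) (c : S_CPX) (l : S_LES) (gp : S_GP) (dg : S_DG)
    {a : ℕ → ℕ → UU} (ha : IsFGL a) (w : H Unit) (hw : w + w = 0) : w = 0 := by
  obtain ⟨γ, hγ⟩ := g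
  obtain ⟨hp, -, x2, x3⟩ := hγ.exact xi _ _ (isSph xi)
  let κ : H (Sph xi) →+ H Unit := (Hpull pt).comp (γ xi (sp xi) (st xi))
  have k2 : ∀ y, κ (y + y) = 0 := fun y =>
    (map_add κ y y).trans (tors_of A c ha (x3.apply_apply_eq_zero y))
  have kd : ∀ d e y, HDeg d e y → HDeg (e - 1) d (κ y) := fun d e y hy => by
    have := hγ.deg xi _ _ 1 (isSph xi) (A.bun.rk_tm _ _) d e y hy
    rw [Nat.cast_one, add_sub_cancel_right] at this
    exact ⟨(A.deg.pull _ _ _).trans (congrArg _ this.1), (A.deg.pull _ _ _).trans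
      (congrArg _ this.2)⟩
  have kl : ∀ u y, κ (Hact (toPt _) u y) = Hact (toPt _) u (κ y) := fun u y =>
    (congrArg (Hpull pt) (hγ.lin xi _ _ (toPt _) (isSph xi) u y)).trans ((A.act.pull _ _ _).2 _)
  let κ1 := (AddMonoidHom.snd _ _).comp (κ.comp (AddMonoidHom.inl _ _))
  let κ2 := (AddMonoidHom.fst _ _).comp (κ.comp (AddMonoidHom.inr _ _))
  have p1 : ∀ y, (κ (y, 0)).1 = 0 := all_of A
    (R := ((AddMonoidHom.fst _ _).comp (κ.comp (AddMonoidHom.inl _ _))).ker) fun d x hx =>
      (kd d 0 (x, 0) ⟨hx, deg_zero _⟩).1.symm.trans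
        (part_ne A (kd d 1 (x, 0) ⟨hx, deg_zero _⟩).1 (by omega))
  have p2 : ∀ y, (κ (0, y)).2 = 0 := all_of A
    (R := ((AddMonoidHom.snd _ _).comp (κ.comp (AddMonoidHom.inr _ _))).ker) fun d x hx =>
      (kd 0 d (0, x) ⟨deg_zero _, hx⟩).2.symm.trans
        (part_ne A (kd 1 d (0, x) ⟨deg_zero _, hx⟩).2 (by omega))
  have d1 : ∀ d x, IsDeg d x → IsDeg (d + 0) (κ1 x) := fun d x hx =>
    (add_zero d).symm ▸ (kd d 0 (x, 0) ⟨hx, deg_zero _⟩).2
  have d2 : ∀ d x, IsDeg d x → IsDeg (d + -1) (κ2 x) := fun d x hx =>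
    (kd 0 d (0, x) ⟨deg_zero _, hx⟩).1
  have t1 : ∀ x, κ1 (x + x) = 0 := fun x => by
    have := congrArg Prod.snd (k2 (x, 0))
    rwa [Prod.mk_add_mk, add_zero] at this
  have t2 : ∀ x, κ2 (x + x) = 0 := fun x => by
    have := congrArg Prod.fst (k2 (0, x))
    rwa [Prod.mk_add_mk, add_zero] at this
  have r2 : ∀ y, κ2 y = 0 := by
    refine descent A q ha κ2.ker (fun i j x hx => ?_) (fun d x hx => ?_) t2
      (fun e he x hx => ?_) fun H x hx => ?_
    · have := congrArg Prod.fst (kl (a i j) (0, x))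
      have e : Hact (toPt (Sph xi)) (a i j) (0, x) = (0, act (toPt _) (a i j) x) :=
        Prod.ext (map_zero (act _ _)) rfl
      rw [e] at this
      exact this.trans ((congrArg (act _ _) hx).trans (map_zero _))
    · exact (part_map A κ2 _ d2 d x).symm.trans ((congrArg (part _) hx).trans (map_zero _))
    · have h1 := d2 e x hx
      by_cases h2 : e = 1
      · obtain ⟨n, hn⟩ := gp.2.2 (κ2 x)
        rw [h2, add_neg_cancel] at h1
        have h3 := t2 x
        rw [map_add, ← h1, hn, ← Int.cast_add] at h3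
        obtain rfl : n = 0 := by have := dg _ h3; omega
        exact h1.symm.trans (hn.trans Int.cast_zero)
      · exact h1.symm.trans (gp.1 _ (by omega) _)
    · have := H x hx
      rwa [prod_line A, zero_sub, neg_mem_iff] at this
  have r1 : ∀ y, κ1 y = 0 := by
    refine descent A q ha κ1.ker (fun i j x hx => ?_) (fun d x hx => ?_) t1
      (fun e he x hx => ?_) fun H x hx => ?_
    · have := congrArg Prod.snd (kl (a i j) (x, 0))
      have e : Hact (toPt (Sph xi)) (a i j) (x, 0) = (act (toPt _) (a i j) x, 0) :=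
        Prod.ext rfl (map_zero (act _ _))
      rw [e] at this
      exact this.trans ((congrArg (act _ _) hx).trans (map_zero _))
    · exact (part_map A κ1 _ d1 d x).symm.trans ((congrArg (part _) hx).trans (map_zero _))
    · exact (d1 e x hx).symm.trans (gp.2.1 _ (by omega) _)
    · have n1 : ∀ y, pullR (sm xi pt) y = 0 → κ1 y = 0 := fun y hy => by
        have := (hγ.nat xi _ _ pt _ _ (sm xi pt) (isSph xi) (isSph _)
          (ContinuousMap.continuous _).isProperMap (fun _ => rfl) fun _ => rfl).2 (y, 0)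
        have e : Hpull (sm xi pt) (y, 0) = 0 := Prod.ext hy (map_zero (pull _))
        rw [e, map_zero] at this
        exact (congrArg Prod.snd this).symm
      rcases isEmpty_or_nonempty (Sph (xi.pull pt)) with h0 | ⟨⟨v⟩⟩
      · exact n1 x (A.fn.empty _)
      obtain ⟨n, hn⟩ := gp.2.2 (pullR (.const Unit v) (pullR (sm xi pt) x))
      have e0 : IsDeg 0 (pullR (.const Unit v) (pullR (sm xi pt) x)) :=
        (A.deg.pull _ _ _).trans (congrArg _ ((A.deg.pull _ _ _).trans (congrArg _ hx)))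
      have e1 : κ1 1 = 0 := by
        have := congrArg (fun z => (Hpull pt z).2) (x2.apply_apply_eq_zero (1, 0))
        have e : Hpull (sp xi) (1, 0) = (1, 0) :=
          Prod.ext (map_one (pullR (sp xi))) (map_zero (pull _))
        rw [e, map_zero] at this
        exact this
      have e2 : ∀ φ : h (Sph xi) →+ h (Sph xi), φ 1 = 1 → φ n = n := fun φ e => by
        rw [← zsmul_one, map_zsmul, e]
      have e3 : IsDeg 0 (x - (n : h (Sph xi))) := by
        rw [IsDeg, map_sub, hx, e2 _ (A.deg.one _)]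
      have e4 : pullR (sm xi pt) ((x - n) * (x - n)) = 0 := by
        rw [map_mul]
        refine sq_sph A l v (show pullR _ _ = 0 from ?_)
        rw [map_sub, map_sub, map_intCast, map_intCast, ← hn, e0, sub_self]
      have e5 : κ1 ((x - n) * (x - n) - (x - n)) = 0 := H _ e3
      rw [map_sub, n1 _ e4, zero_sub, neg_eq_zero, map_sub, ← zsmul_one, map_zsmul, e1, smul_zero,
        sub_zero] at e5
      exact e5
  obtain ⟨y, hy⟩ := (x3 (Hpull (toPt _) w)).1 (by
    rw [heul_xi A c ha, ← map_add, hw, map_zero, map_zero])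
  have e : κ y = w := (congrArg (Hpull pt) hy).trans (pt_to A w)
  rw [← e, ← Prod.fst_add_snd y, map_add]
  exact Prod.ext ((congrArg₂ (· + ·) (p1 _) (r2 _)).trans (add_zero _))
    ((congrArg₂ (· + ·) (r1 _) (p2 _)).trans (add_zero _))

theorem qa (A : Api) (q : S_Q) (g : S_Gys) (c : S_CPX) (l : S_LES) (gp : S_GP) (dg : S_DG) :
    S_QA := fun a ha =>
  ⟨gen A q gp ha, fun u hu => congrArg Prod.fst (tors A q g c l gp dg ha (u, 0)
    (Prod.ext ((two_mul u).symm.trans hu) (add_zero _))), fun x y e => sub_eq_zero.1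
      (congrArg Prod.snd (tors A q g c l gp dg ha (0, x - y) (Prod.ext (add_zero _) (by
        have e : x + x = y + y := e
        show x - y + (x - y) = 0
        rw [← add_sub_add_comm, e, sub_self])))), surj A q gp ha⟩

end

end Pool.Agent.MP_826def_gt.BQ
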